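import Mathlib

set_option autoImplicit false

/-! Elementary estimates for the two scales of large gaps. -/

namespace Pool.Agent.Helper736_CG

open Filter

/-- The record scale of the starting files. -/
noncomputable def ff (x : ℝ) : ℝ :=
  Real.log x * (Real.log (Real.log x)) ^ 2 * Real.log (Real.log (Real.log (Real.log x))) /
    (Real.log (Real.log (Real.log x))) ^ 2

/-- The published record scale. -/
noncomputable def gg (x : ℝ) : ℝ :=
  Real.log x * Real.log (Real.log x) * Real.log (Real.log (Real.log (Real.log x))) /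
    Real.log (Real.log (Real.log x))

theorem ev_bounds (C : ℝ) : ∀ᶠ X : ℝ in atTop, C * ff X ≤ (Real.log X) ^ 2 ∧
    C * gg X ≤ (Real.log X) ^ 2 ∧ 0 ≤ ff X ∧ 0 ≤ gg X ∧ 1 ≤ Real.log X := by
  have hlog := Real.tendsto_log_atTop
  have hll : Tendsto (fun l : ℝ => Real.log (Real.log l)) atTop atTop := hlog.comp hlog
  have hlll : Tendsto (fun l : ℝ => Real.log (Real.log (Real.log l))) atTop atTop := hlog.comp hll
  have key : ∀ᶠ u : ℝ in atTop, (|C| + 1) * (Real.log u) ^ 2 ≤ u ∧ 1 ≤ u ∧ 1 ≤ Real.log u ∧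
      1 ≤ Real.log (Real.log u) ∧ 1 ≤ Real.log (Real.log (Real.log u)) := by
    have h1 := (Real.isLittleO_pow_log_id_atTop (n := 2)).def
      (show (0 : ℝ) < 1 / (|C| + 1) by positivity)
    filter_upwards [h1, eventually_ge_atTop (1 : ℝ), hlog.eventually_ge_atTop 1,
      hll.eventually_ge_atTop 1, hlll.eventually_ge_atTop 1] with u h1 h2 h3 h4 h5
    refine ⟨?_, h2, h3, h4, h5⟩
    rw [Real.norm_eq_abs, Real.norm_eq_abs, abs_of_nonneg (by positivity), id,
      abs_of_nonneg (show (0 : ℝ) ≤ u by linarith)] at h1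
    have h6 : (0 : ℝ) < |C| + 1 := by positivity
    calc (|C| + 1) * (Real.log u) ^ 2 ≤ (|C| + 1) * (1 / (|C| + 1) * u) := by gcongr
      _ = u := by field_simp
  filter_upwards [hlog.eventually key] with X hX
  obtain ⟨h1, h2, h3, h4, h5⟩ := hX
  unfold ff gg
  set u := Real.log X
  set v := Real.log u
  set s := Real.log v
  set r := Real.log s
  have hs0 : 0 < s := by linarith
  have hrs : r ≤ s := by
    have := Real.log_le_sub_one_of_pos hs0
    linarith
  have hr0 : 0 < r := by linarith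
  have hf0 : 0 ≤ u * v ^ 2 * r / s ^ 2 := by positivity
  have hg0 : 0 ≤ u * v * r / s := by positivity
  have hf : u * v ^ 2 * r / s ^ 2 ≤ u * v ^ 2 := by
    rw [div_le_iff₀ (by positivity)]
    have : r ≤ s ^ 2 := by nlinarith
    have h7 : 0 ≤ u * v ^ 2 := by positivity
    exact mul_le_mul_of_nonneg_left this h7
  have hg : u * v * r / s ≤ u * v ^ 2 := by
    rw [div_le_iff₀ hs0]
    have h7 : u * v ≤ u * v ^ 2 := by
      have : v ≤ v ^ 2 := by nlinarith
      exact mul_le_mul_of_nonneg_left this (by linarith)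
    calc u * v * r ≤ u * v ^ 2 * s := mul_le_mul h7 hrs hr0.le (by positivity)
      _ = _ := rfl
  have hmain : |C| * (u * v ^ 2) ≤ u ^ 2 := by
    have h8 : |C| * v ^ 2 ≤ u := by
      have : 0 ≤ v ^ 2 := by positivity
      nlinarith
    calc |C| * (u * v ^ 2) = u * (|C| * v ^ 2) := by ring
      _ ≤ u * u := mul_le_mul_of_nonneg_left h8 (by linarith)
      _ = u ^ 2 := by ring
  refine ⟨?_, ?_, hf0, hg0, h2⟩
  · calc C * (u * v ^ 2 * r / s ^ 2) ≤ |C| * (u * v ^ 2 * r / s ^ 2) :=
          mul_le_mul_of_nonneg_right (le_abs_self C) hf0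
      _ ≤ |C| * (u * v ^ 2) := mul_le_mul_of_nonneg_left hf (abs_nonneg C)
      _ ≤ u ^ 2 := hmain
  · calc C * (u * v * r / s) ≤ |C| * (u * v * r / s) :=
          mul_le_mul_of_nonneg_right (le_abs_self C) hg0
      _ ≤ |C| * (u * v ^ 2) := mul_le_mul_of_nonneg_left hg (abs_nonneg C)
      _ ≤ u ^ 2 := hmain

theorem ev_ratio (C : ℝ) : ∀ᶠ X : ℝ in atTop, C * Real.log X ≤ gg X := by
  have hlog := Real.tendsto_log_atTop
  have hll : Tendsto (fun l : ℝ => Real.log (Real.log l)) atTop atTop := hlog.comp hlog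
  have key : ∀ᶠ v : ℝ in atTop, (|C| + 1) * Real.log v ≤ v ∧ 1 ≤ v ∧ 1 ≤ Real.log v ∧
      1 ≤ Real.log (Real.log v) := by
    have h1 := (Real.isLittleO_log_id_atTop).def (show (0 : ℝ) < 1 / (|C| + 1) by positivity)
    filter_upwards [h1, eventually_ge_atTop (1 : ℝ), hlog.eventually_ge_atTop 1,
      hll.eventually_ge_atTop 1] with u h1 h2 h3 h4
    refine ⟨?_, h2, h3, h4⟩
    rw [Real.norm_eq_abs, Real.norm_eq_abs, abs_of_nonneg (show (0 : ℝ) ≤ Real.log u by linarith), id,
      abs_of_nonneg (show (0 : ℝ) ≤ u by linarith)] at h1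
    have h6 : (0 : ℝ) < |C| + 1 := by positivity
    calc (|C| + 1) * Real.log u ≤ (|C| + 1) * (1 / (|C| + 1) * u) := by gcongr
      _ = u := by field_simp
  filter_upwards [hll.eventually key, hlog.eventually_ge_atTop 1] with X hX hu
  obtain ⟨h1, h2, h3, h4⟩ := hX
  unfold gg
  set u := Real.log X
  set v := Real.log u
  set s := Real.log v
  set r := Real.log s
  have hs0 : 0 < s := by linarith
  rw [le_div_iff₀ hs0]
  have h5 : |C| * s ≤ v := by nlinarith
  have h6 : C * s ≤ v * r := by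
    have h7 : C * s ≤ |C| * s := mul_le_mul_of_nonneg_right (le_abs_self C) hs0.le
    nlinarith
  calc C * u * s = u * (C * s) := by ring
    _ ≤ u * (v * r) := mul_le_mul_of_nonneg_left h6 (by linarith)
    _ = u * v * r := by ring

end Pool.Agent.Helper736_CG
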