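import Mathlib

set_option autoImplicit false

/-! Parity vectors of Collatz trajectories (Terras), in the form used for record gaps. -/

namespace Pool.Agent.Helper736_CG

open Finset

/-- The Collatz map `n ↦ n / 2` (`n` even), `n ↦ (3 n + 1) / 2` (`n` odd). -/
def T (n : ℕ) : ℕ := if n % 2 = 0 then n / 2 else (3 * n + 1) / 2

/-- The number of odd steps among the first `i` letters of `w`. -/
def ones (w : ℕ → Bool) (i : ℕ) : ℕ := ((range i).filter (fun j => w j = true)).card

/-- The trajectory of `m` follows the first `L` letters of `w`. -/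
def Follows (w : ℕ → Bool) (L m : ℕ) : Prop := ∀ i < L, (T^[i] m % 2 = 1 ↔ w i = true)

theorem ones_succ (w : ℕ → Bool) (i : ℕ) : ones w (i + 1) = ones w i + if w i = true then 1 else 0 := by
  unfold ones
  rw [range_add_one, filter_insert]
  split_ifs with h
  · rw [card_insert_of_notMem (by simp)]
  · rfl

theorem T_shift (y u : ℕ) : T (y + 2 * u) = T y + (if y % 2 = 1 then 3 else 1) * u := by
  unfold T
  split_ifs <;> omega

theorem shift {w : ℕ → Bool} {L a : ℕ} (h : Follows w L a) (t : ℕ) : ∀ i : ℕ, i ≤ L →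
    T^[i] (a + 2 ^ L * t) = T^[i] a + 3 ^ ones w i * 2 ^ (L - i) * t := by
  intro i
  induction i with
  | zero => intro _; simp [ones]
  | succ i ih =>
    intro hi
    rw [Function.iterate_succ_apply', Function.iterate_succ_apply', ih (by omega)]
    have e1 : L - i = (L - (i + 1)) + 1 := by omega
    have e2 : 3 ^ ones w i * 2 ^ (L - i) * t = 2 * (3 ^ ones w i * 2 ^ (L - (i + 1)) * t) := by
      rw [e1, pow_succ]; ring
    rw [e2, T_shift]
    congr 1
    have h1 := h i (by omega)
    rw [ones_succ]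
    by_cases hw : w i = true
    · rw [if_pos (h1.2 hw), if_pos hw, pow_add]; ring
    · rw [if_neg (fun hc => hw (h1.1 hc)), if_neg hw, pow_add]; ring

theorem follows_shift {w : ℕ → Bool} {L a : ℕ} (h : Follows w L a) (t : ℕ) :
    Follows w L (a + 2 ^ L * t) := by
  intro i hi
  rw [shift h t i hi.le, ← h i hi]
  have e1 : L - i = (L - (i + 1)) + 1 := by omega
  have e2 : 3 ^ ones w i * 2 ^ (L - i) * t = 2 * (3 ^ ones w i * 2 ^ (L - (i + 1)) * t) := by
    rw [e1, pow_succ]; ring
  rw [e2]
  omega

theorem exists_follows (w : ℕ → Bool) (L : ℕ) : ∃ a : ℕ, a < 2 ^ L ∧ Follows w L a := by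
  induction L with
  | zero => exact ⟨0, by norm_num, fun i hi => absurd hi (Nat.not_lt_zero i)⟩
  | succ L ih =>
    obtain ⟨a, ha, hf⟩ := ih
    have key : ∀ b : ℕ, (T^[L] (a + 2 ^ L * b) % 2 = 1 ↔ w L = true) →
        Follows w (L + 1) (a + 2 ^ L * b) := by
      intro b hb i hi
      rcases Nat.lt_succ_iff_lt_or_eq.1 hi with h | h
      · exact follows_shift hf b i h
      · rw [h]; exact hb
    have hs := fun b => shift hf b L le_rfl
    have hodd : (3 ^ ones w L) % 2 = 1 := Nat.odd_iff.1 (Odd.pow (by decide))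
    by_cases hc : (T^[L] a % 2 = 1 ↔ w L = true)
    · refine ⟨a + 2 ^ L * 0, by rw [pow_succ]; omega, key 0 ?_⟩
      rw [mul_zero, add_zero]; exact hc
    · refine ⟨a + 2 ^ L * 1, by rw [pow_succ]; omega, key 1 ?_⟩
      rw [hs 1]
      simp only [Nat.sub_self, pow_zero, mul_one]
      rcases Nat.mod_two_eq_zero_or_one (T^[L] a) with h0 | h0
      · have h1 : w L = true := by
          by_contra hw
          exact hc ⟨fun h => by omega, fun h => absurd h hw⟩
        exact ⟨fun _ => h1, fun _ => by omega⟩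
      · have h1 : ¬ w L = true := fun hw => hc ⟨fun _ => hw, fun _ => h0⟩
        exact ⟨fun h => by omega, fun h => absurd h h1⟩

theorem iterate_lt {w : ℕ → Bool} {L a : ℕ} (h : Follows w L a) (ha : a < 2 ^ L) : ∀ l : ℕ, l ≤ L →
    T^[l] a < 3 ^ ones w l * 2 ^ (L - l) := by
  intro l
  induction l with
  | zero => intro _; simpa [ones] using ha
  | succ l ih =>
    intro hl
    rw [Function.iterate_succ_apply']
    have e1 : L - l = (L - (l + 1)) + 1 := by omega
    have h0 := ih (by omega)
    rw [e1, pow_succ, ← mul_assoc] at h0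
    have h1 := h l (by omega)
    rw [ones_succ]
    set y := T^[l] a
    by_cases hw : w l = true
    · have hy := h1.2 hw
      rw [if_pos hw, pow_add, pow_one]
      set Z := 3 ^ ones w l * 2 ^ (L - (l + 1)) with hZ
      have e2 : 3 ^ ones w l * 3 * 2 ^ (L - (l + 1)) = 3 * Z := by rw [hZ]; ring
      rw [e2]
      unfold T
      rw [if_neg (by omega)]
      omega
    · have hy : y % 2 = 0 := by
        rcases Nat.mod_two_eq_zero_or_one y with h2 | h2
        · exact h2
        · exact absurd (h1.1 h2) hw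
      rw [if_neg hw, add_zero]
      unfold T
      rw [if_pos hy]
      omega

theorem totient_bound (s r : ℕ) : 3 ^ s * 2 ^ r ≤ 3 * Nat.totient (3 ^ s * 2 ^ r) := by
  rw [Nat.totient_mul (Nat.Coprime.pow _ _ (by norm_num))]
  have h1 : 2 * 3 ^ s ≤ 3 * Nat.totient (3 ^ s) := by
    rcases s with _ | s
    · simp
    · rw [Nat.totient_prime_pow_succ Nat.prime_three, pow_succ]; omega
  have h2 : 2 ^ r ≤ 2 * Nat.totient (2 ^ r) := by
    rcases r with _ | r
    · simp
    · rw [Nat.totient_prime_pow_succ Nat.prime_two, pow_succ]; omega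
  have h3 := Nat.mul_le_mul h1 h2
  have e1 : 2 * 3 ^ s * 2 ^ r = 2 * (3 ^ s * 2 ^ r) := by ring
  have e2 : 3 * Nat.totient (3 ^ s) * (2 * Nat.totient (2 ^ r)) =
      2 * (3 * (Nat.totient (3 ^ s) * Nat.totient (2 ^ r))) := by ring
  rw [e1, e2] at h3
  omega

end Pool.Agent.Helper736_CG
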