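import Mathlib
import Pool.Agent.Helper736_CG.Terras

set_option autoImplicit false

/-! The Collatz map on the integers. -/

namespace Pool.Agent.Helper736_CG

open Finset

/-- The Collatz map on the integers: `n ↦ n / 2` (`n` even), `n ↦ (3 n + 1) / 2` (`n` odd). -/
def TZ (n : ℤ) : ℤ := if n % 2 = 0 then n / 2 else (3 * n + 1) / 2

/-- The trajectory of `m` follows the first `L` letters of `w` (`true` for an odd term). -/
def FollowsZ (w : ℕ → Bool) (L : ℕ) (m : ℤ) : Prop := ∀ i < L, (TZ^[i] m % 2 = 1 ↔ w i = true)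

theorem TZ_natCast (n : ℕ) : TZ (n : ℤ) = (T n : ℤ) := by
  unfold TZ T
  rcases Nat.mod_two_eq_zero_or_one n with h | h
  · rw [if_pos (by omega), if_pos h]; omega
  · rw [if_neg (by omega), if_neg (by omega)]; omega

theorem iterate_natCast (i n : ℕ) : TZ^[i] (n : ℤ) = (T^[i] n : ℕ) := by
  induction i with
  | zero => rfl
  | succ i ih => rw [Function.iterate_succ_apply', Function.iterate_succ_apply', ih, TZ_natCast]

theorem followsZ_natCast {w : ℕ → Bool} {L m : ℕ} (h : Follows w L m) : FollowsZ w L m := by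
  intro i hi
  rw [iterate_natCast, ← h i hi]
  omega

theorem TZ_shift (y u : ℤ) : TZ (y + 2 * u) = TZ y + (if y % 2 = 1 then 3 else 1) * u := by
  unfold TZ
  split_ifs <;> omega

theorem shiftZ {w : ℕ → Bool} {L : ℕ} {a : ℤ} (h : FollowsZ w L a) (t : ℤ) : ∀ i : ℕ, i ≤ L →
    TZ^[i] (a + 2 ^ L * t) = TZ^[i] a + 3 ^ ones w i * 2 ^ (L - i) * t := by
  intro i
  induction i with
  | zero => intro _; simp [ones]
  | succ i ih =>
    intro hi
    rw [Function.iterate_succ_apply', Function.iterate_succ_apply', ih (by omega)]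
    have e1 : L - i = (L - (i + 1)) + 1 := by omega
    have e2 : (3 : ℤ) ^ ones w i * 2 ^ (L - i) * t =
        2 * (3 ^ ones w i * 2 ^ (L - (i + 1)) * t) := by
      rw [e1, pow_succ]; ring
    rw [e2, TZ_shift]
    congr 1
    have h1 := h i (by omega)
    rw [ones_succ]
    by_cases hw : w i = true
    · rw [if_pos (h1.2 hw), if_pos hw, pow_add]; ring
    · rw [if_neg (fun hc => hw (h1.1 hc)), if_neg hw, pow_add]; ring

theorem followsZ_shift {w : ℕ → Bool} {L : ℕ} {a : ℤ} (h : FollowsZ w L a) (t : ℤ) :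
    FollowsZ w L (a + 2 ^ L * t) := by
  intro i hi
  rw [shiftZ h t i hi.le, ← h i hi]
  have e1 : L - i = (L - (i + 1)) + 1 := by omega
  have e2 : (3 : ℤ) ^ ones w i * 2 ^ (L - i) * t =
      2 * (3 ^ ones w i * 2 ^ (L - (i + 1)) * t) := by
    rw [e1, pow_succ]; ring
  rw [e2]
  omega

/-- the multiplier of the `i`-th iterate on a class modulo `2 ^ L` -/
def al (w : ℕ → Bool) (L i : ℕ) : ℕ := 3 ^ ones w i * 2 ^ (L - i)

theorem al_pos (w : ℕ → Bool) (L i : ℕ) : 1 ≤ al w L i :=
  Nat.one_le_iff_ne_zero.2 (by unfold al; positivity)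

theorem padic_al (w : ℕ → Bool) (L i : ℕ) : padicValNat 2 (al w L i) = L - i := by
  unfold al
  rw [padicValNat.mul (by positivity) (by positivity), padicValNat.prime_pow,
    padicValNat.eq_zero_of_not_dvd, zero_add]
  intro h
  have := Nat.prime_two.dvd_of_dvd_pow h
  omega

theorem al_inj (w : ℕ → Bool) (L : ℕ) {i j : ℕ} (hi : i ≤ L) (hj : j ≤ L)
    (h : al w L i = al w L j) : i = j := by
  have h1 := padic_al w L i
  rw [h, padic_al] at h1
  omega

theorem ones_le (w : ℕ → Bool) (i : ℕ) : ones w i ≤ i := by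
  unfold ones
  exact (card_filter_le _ _).trans (by simp)

theorem al_le (w : ℕ → Bool) {L i : ℕ} (hi : i ≤ L) : al w L i ≤ 3 ^ L := by
  unfold al
  calc 3 ^ ones w i * 2 ^ (L - i) ≤ 3 ^ i * 3 ^ (L - i) :=
        Nat.mul_le_mul (Nat.pow_le_pow_right (by norm_num) (ones_le w i))
          (Nat.pow_le_pow_left (by norm_num) _)
    _ = 3 ^ L := by rw [← pow_add]; congr 1; omega

theorem al_div (w : ℕ → Bool) (L i : ℕ) :
    ((al w L i : ℕ) : ℝ) / (Nat.totient (al w L i) : ℝ) ≤ 3 := by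
  have h1 : al w L i ≤ 3 * Nat.totient (al w L i) := totient_bound _ _
  have h2 : 0 < Nat.totient (al w L i) := Nat.totient_pos.2 (al_pos w L i)
  rw [div_le_iff₀ (by exact_mod_cast h2)]
  exact_mod_cast h1

theorem exists_followsZ (w : ℕ → Bool) (L : ℕ) : ∃ a : ℤ, 0 ≤ a ∧ a < 2 ^ L ∧ FollowsZ w L a ∧
    ∀ i ≤ L, |TZ^[i] a| ≤ 3 ^ L := by
  obtain ⟨a, ha, hf⟩ := exists_follows w L
  refine ⟨a, by positivity, by exact_mod_cast ha, followsZ_natCast hf, fun i hi => ?_⟩
  rw [iterate_natCast, abs_of_nonneg (by positivity)]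
  have h1 := (iterate_lt hf ha i hi).le.trans (al_le w hi)
  exact_mod_cast h1

/-- the parity word of an integer -/
def word (a : ℤ) (i : ℕ) : Bool := decide (TZ^[i] a % 2 = 1)

theorem follows_word (a : ℤ) (L : ℕ) : FollowsZ (word a) L a := by
  intro i _
  unfold word
  rw [decide_eq_true_iff]

end Pool.Agent.Helper736_CG
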