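import Mathlib
import Pool.Agent.Helper123.SM.Main

set_option autoImplicit false

/-!
# Record prime gaps around the multiples of `n` by ALL elements of an arbitrary finite set

Let `f(x) = log x (log₂ x)² log₄ x / (log₃ x)²`, the size of the largest prime gaps that are known to occur up to
`x`. The theorem finds, in every interval of length `X`, an integer `n` such that for all `α` in an ARBITRARY finite
set `𝒜` of positive integers `α ≤ exp ((log X)^(D+1))` no prime lies within `K(α)` of the multiple `α n`, if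

`∑_(α ∈ 𝒜) K(α) α / φ(α) ≤ c f(X)` and all `K(α) ≥ log X`;

at the same time the values at `n` of the forms `α n + a` of an ARBITRARY finite set `𝓛` of linear forms are not prime,
if `∑_𝓛 α / φ(α) ≤ c log X log₂ X log₄ X / log₃ X`.

Here `𝒜`, `K`, `𝓛` may depend on `X`; `𝒜` can have up to `c (log₂ X)² log₄ X / (log₃ X)²` elements.

The case of one `α` is the starting file `MP_028722_nt.MultiplesOfEveryInteger` (team of helper361), the case
`𝒜 = {1, …, J}` is the starting file `MP_028722_nt.SimultaneousGaps` (helper341), the case of translates `n + a` is in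
`Pool/Agent/H361R2/PA`. New here: the medium primes are given to all multiples at once (the class `0` modulo `p` is
the same for all `α n + j` with `p ∣ j`), the small primes by a weighted average over the forms, in which `α n + a`
has the weight `∏ (1 - 1/p)` over the small primes not dividing `α`, and the large primes by the covering theorem
`Pool.Agent.H361R2.PA.coveringD` applied to the REDUCED forms (proportional forms `α n + a` are treated together).
-/

namespace Pool.Agent.Helper736_CG.OldSM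

/-- The record scale `f(x) = log x (log₂ x)² log₄ x / (log₃ x)²` (iterated natural logarithms). -/
noncomputable def f (x : ℝ) : ℝ :=
  Real.log x * (Real.log (Real.log x)) ^ 2 * Real.log (Real.log (Real.log (Real.log x))) /
    (Real.log (Real.log (Real.log x))) ^ 2

/-- The published record scale `g(x) = log x log₂ x log₄ x / log₃ x`. -/
noncomputable def g (x : ℝ) : ℝ :=
  Real.log x * Real.log (Real.log x) * Real.log (Real.log (Real.log (Real.log x))) /
    Real.log (Real.log (Real.log x))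

/-- For every `D` there are `c > 0` and `X₀` such that for all `X ≥ X₀`:
let `𝒜` be a finite set of integers `1 ≤ α ≤ exp ((log X)^(D+1))` and let `K(α) ≥ log X`, `α ∈ 𝒜`, with
`∑_𝒜 K(α) α/φ(α) ≤ c f(X)`; let `𝓛` be a finite set of forms `α n + a`, `1 ≤ α ≤ exp ((log X)^(D+1))`,
`|a| ≤ exp ((log X)^(D+1))` with `∑_𝓛 α/φ(α) ≤ c g(X)`. Every interval `(z + X/4, z + X]` contains an integer `n`
such that no `α n + j`, `α ∈ 𝒜`, `|j| ≤ K(α)`, and no `α n + a` of `𝓛` is a prime or minus a prime. -/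
theorem result (D : ℕ) : ∃ c : ℝ, 0 < c ∧ ∃ X₀ : ℝ, ∀ X : ℝ, X₀ ≤ X →
    ∀ (𝒜 : Finset ℕ) (K : ℕ → ℝ),
    (∀ α ∈ 𝒜, 1 ≤ α ∧ (α : ℝ) ≤ Real.exp ((Real.log X) ^ (D + 1)) ∧ Real.log X ≤ K α) →
    ∑ α ∈ 𝒜, K α * ((α : ℝ) / (Nat.totient α : ℝ)) ≤ c * f X →
    ∀ 𝓛 : Finset (ℕ × ℤ),
    (∀ x ∈ 𝓛, 1 ≤ x.1 ∧ (x.1 : ℝ) ≤ Real.exp ((Real.log X) ^ (D + 1)) ∧
      |(x.2 : ℝ)| ≤ Real.exp ((Real.log X) ^ (D + 1))) →
    ∑ x ∈ 𝓛, (x.1 : ℝ) / (Nat.totient x.1 : ℝ) ≤ c * g X →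
    ∀ z : ℤ, ∃ n : ℤ, (z : ℝ) + X / 4 < n ∧ (n : ℝ) ≤ z + X ∧
      (∀ α ∈ 𝒜, ∀ j : ℤ, |(j : ℝ)| ≤ K α → ¬ ((α : ℤ) * n + j).natAbs.Prime) ∧
      ∀ x ∈ 𝓛, ¬ ((x.1 : ℤ) * n + x.2).natAbs.Prime := by
  obtain ⟨c₁, hc₁, X₁, h1⟩ := Pool.Agent.Helper123.SM.multS D
  refine ⟨c₁, hc₁, X₁, fun X hX 𝒜 K h𝒜 hK 𝓛 h𝓛 hL z => ?_⟩
  have hF : Pool.Agent.H361R2.PA.FF 1 X = f X := by
    unfold Pool.Agent.H361R2.PA.FF f
    rw [pow_one]
  have hlog : ∀ α : ℕ, 1 ≤ α → (α : ℝ) ≤ Real.exp ((Real.log X) ^ (D + 1)) →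
      Real.log α ≤ (Real.log X) ^ (D + 1) := by
    intro α hα1 hα
    have hα0 : (0 : ℝ) < α := by exact_mod_cast hα1
    rw [← Real.log_exp ((Real.log X) ^ (D + 1))]
    exact Real.log_le_log hα0 hα
  obtain ⟨n, e1, e2, e3, e4⟩ := h1 X hX 𝒜 K
    (fun α hα => ⟨(h𝒜 α hα).1, hlog α (h𝒜 α hα).1 (h𝒜 α hα).2.1, (h𝒜 α hα).2.2⟩)
    (by rw [hF]; exact hK) 𝓛
    (fun x hx => ⟨(h𝓛 x hx).1, hlog x.1 (h𝓛 x hx).1 (h𝓛 x hx).2.1, (h𝓛 x hx).2.2⟩) hL z
  exact ⟨n, e1, e2, fun α hα j hj hp => e3 α hα j hj (Int.prime_iff_natAbs_prime.2 hp),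
    fun x hx hp => e4 x hx (Int.prime_iff_natAbs_prime.2 hp)⟩

end Pool.Agent.Helper736_CG.OldSM
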