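import Mathlib
import Pool.Agent.Helper736_CG.OldSM
import Pool.Agent.Helper736_CG.Int
import Pool.Agent.Helper736_CG.Ev

set_option autoImplicit false

/-! Large prime gaps around all the terms of a piece of a Collatz trajectory. -/

namespace Pool.Agent.Helper736_CG

open Filter Finset

/-- no integer at distance at most `K` from `y` is a prime or minus a prime -/
def PrimeFree (K : ℕ) (y : ℤ) : Prop := ∀ j : ℤ, |j| ≤ K → ¬ (y + j).natAbs.Prime

theorem three_pow_le (L : ℕ) : (3 : ℝ) ^ L ≤ Real.exp (2 * L) := by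
  have h1 : (3 : ℝ) ≤ Real.exp 2 := by
    have := Real.add_one_le_exp (2 : ℝ)
    linarith
  calc (3 : ℝ) ^ L ≤ (Real.exp 2) ^ L := pow_le_pow_left₀ (by norm_num) h1 L
    _ = Real.exp (2 * L) := by rw [← Real.exp_nat_mul, mul_comm]

theorem pow_add_le (L K : ℕ) : (3 : ℝ) ^ L + K ≤ Real.exp (2 * L + K + 1) := by
  have h1 := three_pow_le L
  have h2 : (K : ℝ) ≤ Real.exp K := by
    have := Real.add_one_le_exp (K : ℝ)
    linarith
  have h3 : (2 : ℝ) ≤ Real.exp 1 := by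
    have := Real.add_one_le_exp (1 : ℝ)
    linarith
  have h4 : Real.exp (2 * L) ≤ Real.exp (2 * L + K) := Real.exp_le_exp.2 (by
    have : (0 : ℝ) ≤ K := Nat.cast_nonneg K
    linarith)
  have h5 : Real.exp (K : ℝ) ≤ Real.exp (2 * L + K) := Real.exp_le_exp.2 (by
    have : (0 : ℝ) ≤ L := Nat.cast_nonneg L
    linarith)
  calc (3 : ℝ) ^ L + K ≤ Real.exp (2 * L + K) + Real.exp (2 * L + K) := by linarith
    _ = Real.exp (2 * L + K) * 2 := by ring
    _ ≤ Real.exp (2 * L + K) * Real.exp 1 := by gcongr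
    _ = Real.exp (2 * L + K + 1) := by rw [← Real.exp_add]

/-- **Every parity word**: all the terms of a trajectory with a prescribed parity word can be kept
away from the primes. -/
theorem words : ∃ c : ℝ, 0 < c ∧ ∃ X₀ : ℝ, ∀ X : ℝ, X₀ ≤ X → ∀ (L : ℕ) (w : ℕ → Bool) (K : ℕ → ℕ),
    ∑ i ∈ range (L + 1), (2 * (K i : ℝ) + 1) ≤ c * gg X → ∀ z : ℤ, ∃ n : ℤ,
      2 ^ L * (z : ℝ) < n ∧ (n : ℝ) < 2 ^ L * (z + X + 1) ∧ FollowsZ w L n ∧
        ∀ i ≤ L, PrimeFree (K i) (TZ^[i] n) := by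
  obtain ⟨c₁, hc₁, X₁, h⟩ := Pool.Agent.Helper736_CG.OldSM.result 1
  obtain ⟨X₂, hX₂⟩ := eventually_atTop.1 (ev_bounds (3 * (c₁ / 3)))
  refine ⟨c₁ / 3, by positivity, max (max X₁ X₂) 1, fun X hX L w K hK z => ?_⟩
  have hX1 : X₁ ≤ X := ((le_max_left _ _).trans (le_max_left _ _)).trans hX
  have hX2 : X₂ ≤ X := ((le_max_right _ _).trans (le_max_left _ _)).trans hX
  have hX3 : 1 ≤ X := (le_max_right _ _).trans hX
  obtain ⟨-, e2, e3, e4, e5⟩ := hX₂ X hX2
  obtain ⟨a, ha0, haL, hfa, hbd⟩ := exists_followsZ w L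
  set S : ℝ := ∑ i ∈ range (L + 1), (2 * (K i : ℝ) + 1) with hS
  have hSL : (L : ℝ) + 1 ≤ S := by
    calc (L : ℝ) + 1 = ∑ i ∈ range (L + 1), (1 : ℝ) := by simp
      _ ≤ S := sum_le_sum fun i _ => by
        have : (0 : ℝ) ≤ K i := Nat.cast_nonneg _
        linarith
  have hSK : ∀ i ≤ L, 2 * (K i : ℝ) + 1 ≤ S := fun i hi =>
    single_le_sum (f := fun i => 2 * (K i : ℝ) + 1) (fun j _ => by positivity)
      (mem_range.2 (by omega))
  have hexp : ∀ i ≤ L, (3 : ℝ) ^ L + K i ≤ Real.exp ((Real.log X) ^ (1 + 1)) := by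
    intro i hi
    refine (pow_add_le L (K i)).trans (Real.exp_le_exp.2 ?_)
    have h1 := hSK i hi
    have h2 : (0 : ℝ) ≤ K i := Nat.cast_nonneg _
    have h3 : 3 * S ≤ (Real.log X) ^ 2 := by
      calc 3 * S ≤ 3 * (c₁ / 3 * gg X) := by linarith
        _ = 3 * (c₁ / 3) * gg X := by ring
        _ ≤ _ := e2
    have h4 : (Real.log X) ^ (1 + 1) = (Real.log X) ^ 2 := rfl
    rw [h4]
    linarith
  set ι : Finset (Σ _ : ℕ, ℤ) := (range (L + 1)).sigma (fun i => Icc (-(K i : ℤ)) (K i)) with hι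
  set φ : (Σ _ : ℕ, ℤ) → ℕ × ℤ := fun x => (al w L x.1, TZ^[x.1] a + x.2) with hφ
  have hmem : ∀ x ∈ ι, x.1 ≤ L ∧ |x.2| ≤ K x.1 := by
    intro x hx
    rw [hι, mem_sigma, mem_range, mem_Icc] at hx
    exact ⟨by omega, abs_le.2 ⟨hx.2.1, hx.2.2⟩⟩
  have hinj : Set.InjOn φ ι := by
    intro x hx y hy hxy
    have h1 := hmem x hx
    have h2 := hmem y hy
    obtain ⟨x1, x2⟩ := x
    obtain ⟨y1, y2⟩ := y
    simp only [hφ, Prod.mk.injEq] at hxy
    have h3 := al_inj w L h1.1 h2.1 hxy.1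
    simp only at h3
    subst h3
    have h4 : x2 = y2 := by linarith [hxy.2]
    rw [h4]
  obtain ⟨t, ht1, ht2, -, ht3⟩ := h X hX1 ∅ (fun _ => 0) (by simp) (by
      rw [sum_empty]
      have : Pool.Agent.Helper736_CG.OldSM.f X = ff X := rfl
      rw [this]
      positivity) (ι.image φ) (by
      intro x hx
      rw [mem_image] at hx
      obtain ⟨y, hy, rfl⟩ := hx
      obtain ⟨hy1, hy2⟩ := hmem y hy
      have h1 := hexp y.1 hy1
      have h2 : (0 : ℝ) ≤ K y.1 := Nat.cast_nonneg _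
      have h3 : (0 : ℝ) ≤ 3 ^ L := by positivity
      refine ⟨al_pos w L y.1, ?_, ?_⟩
      · have h4 : ((al w L y.1 : ℕ) : ℝ) ≤ 3 ^ L := by exact_mod_cast al_le w hy1
        simp only [hφ]
        linarith
      · have h4 : |TZ^[y.1] a + y.2| ≤ 3 ^ L + K y.1 :=
          (abs_add_le _ _).trans (add_le_add (hbd y.1 hy1) hy2)
        have h5 : |((TZ^[y.1] a + y.2 : ℤ) : ℝ)| ≤ 3 ^ L + K y.1 := by
          rw [← Int.cast_abs]
          exact_mod_cast h4
        simp only [hφ]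
        linarith) (by
      rw [sum_image hinj, hι, sum_sigma]
      have : Pool.Agent.Helper736_CG.OldSM.g X = gg X := rfl
      rw [this]
      calc ∑ i ∈ range (L + 1), ∑ j ∈ Icc (-(K i : ℤ)) (K i),
            (((φ ⟨i, j⟩).1 : ℕ) : ℝ) / (Nat.totient (φ ⟨i, j⟩).1 : ℝ)
          ≤ ∑ i ∈ range (L + 1), ∑ j ∈ Icc (-(K i : ℤ)) (K i), (3 : ℝ) :=
            sum_le_sum fun i _ => sum_le_sum fun j _ => al_div w L i
        _ = ∑ i ∈ range (L + 1), 3 * (2 * (K i : ℝ) + 1) := by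
            refine sum_congr rfl fun i _ => ?_
            rw [sum_const, Int.card_Icc, nsmul_eq_mul]
            have h1 : ((K i : ℤ) + 1 - -(K i : ℤ)).toNat = 2 * K i + 1 := by omega
            rw [h1]
            push_cast
            ring
        _ = 3 * S := by rw [← mul_sum]
        _ ≤ c₁ * gg X := by linarith) z
  refine ⟨a + 2 ^ L * t, ?_, ?_, followsZ_shift hfa t, fun i hi j hj => ?_⟩
  · have h1 : (0 : ℝ) ≤ (a : ℝ) := by exact_mod_cast ha0
    have h2 : (0 : ℝ) < 2 ^ L := by positivity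
    push_cast
    nlinarith
  · have h1 : (a : ℝ) < 2 ^ L := by exact_mod_cast haL
    have h2 : (0 : ℝ) < 2 ^ L := by positivity
    push_cast
    nlinarith
  · rw [shiftZ hfa t i hi]
    have h1 := ht3 (φ ⟨i, j⟩) (mem_image_of_mem φ (by
      rw [hι, mem_sigma, mem_range, mem_Icc]
      exact ⟨Nat.lt_succ_of_le hi, (abs_le.1 hj).1, (abs_le.1 hj).2⟩))
    simp only [hφ] at h1
    convert h1 using 3
    unfold al
    push_cast
    ring

/-- **Shadowing**: gaps of the size `ff` along the numbers `n ≡ a (mod 2 ^ L)`, where the first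
`L` iterates of `a` are small. -/
theorem shadow : ∃ c : ℝ, 0 < c ∧ ∃ X₀ : ℝ, ∀ X : ℝ, X₀ ≤ X → ∀ (L : ℕ) (a : ℤ) (K : ℕ → ℕ),
    (∀ i ≤ L, Real.log X ≤ K i ∧ |TZ^[i] a| ≤ K i) →
    ∑ i ∈ range (L + 1), (K i : ℝ) ≤ c * ff X → ∀ z : ℤ, ∃ t : ℤ,
      (z : ℝ) + X / 4 < t ∧ (t : ℝ) ≤ z + X ∧
        ∀ i ≤ L, TZ^[i] (a + 2 ^ L * t) = TZ^[i] a + al (word a) L i * t ∧
          PrimeFree (K i) (TZ^[i] (a + 2 ^ L * t)) := by
  obtain ⟨c₁, hc₁, X₁, h⟩ := Pool.Agent.Helper736_CG.OldSM.result 1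
  obtain ⟨X₂, hX₂⟩ := eventually_atTop.1 (ev_bounds (2 * (c₁ / 6)))
  refine ⟨c₁ / 6, by positivity, max (max X₁ X₂) 1, fun X hX L a K hlo hK z => ?_⟩
  have hX1 : X₁ ≤ X := ((le_max_left _ _).trans (le_max_left _ _)).trans hX
  have hX2 : X₂ ≤ X := ((le_max_right _ _).trans (le_max_left _ _)).trans hX
  obtain ⟨e1, -, e3, e4, e5⟩ := hX₂ X hX2
  set w := word a with hw
  have hfa : FollowsZ w L a := follows_word a L
  have hL : (L : ℝ) + 1 ≤ ∑ i ∈ range (L + 1), (K i : ℝ) := by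
    calc (L : ℝ) + 1 = ∑ i ∈ range (L + 1), (1 : ℝ) := by simp
      _ ≤ _ := sum_le_sum fun i hi => by
        have := (hlo i (by rw [mem_range] at hi; omega)).1
        linarith
  set κ : ℕ → ℝ := fun α => 2 * (K (L - padicValNat 2 α) : ℝ) with hκ
  have hκal : ∀ i ≤ L, κ (al w L i) = 2 * (K i : ℝ) := by
    intro i hi
    simp only [hκ]
    rw [padic_al]
    congr 3
    omega
  have hinj : Set.InjOn (al w L) (range (L + 1)) := by
    intro i hi j hj hij
    rw [coe_range, Set.mem_Iio] at hi hj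
    exact al_inj w L (by omega) (by omega) hij
  obtain ⟨t, ht1, ht2, ht3, -⟩ := h X hX1 ((range (L + 1)).image (al w L)) κ (by
      intro α hα
      rw [mem_image] at hα
      obtain ⟨i, hi, rfl⟩ := hα
      rw [mem_range] at hi
      have hi' : i ≤ L := by omega
      refine ⟨al_pos w L i, ?_, ?_⟩
      · have h4 : ((al w L i : ℕ) : ℝ) ≤ 3 ^ L := by exact_mod_cast al_le w hi'
        refine h4.trans ((three_pow_le L).trans (Real.exp_le_exp.2 ?_))
        have h5 : (Real.log X) ^ (1 + 1) = (Real.log X) ^ 2 := rfl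
        rw [h5]
        calc 2 * (L : ℝ) ≤ 2 * (c₁ / 6 * ff X) := by linarith
          _ = 2 * (c₁ / 6) * ff X := by ring
          _ ≤ _ := e1
      · rw [hκal i hi']
        have := (hlo i hi').1
        linarith) (by
      rw [sum_image hinj]
      have h6 : Pool.Agent.Helper736_CG.OldSM.f X = ff X := rfl
      rw [h6]
      calc ∑ i ∈ range (L + 1), κ (al w L i) *
            (((al w L i : ℕ) : ℝ) / (Nat.totient (al w L i) : ℝ))
          ≤ ∑ i ∈ range (L + 1), 2 * (K i : ℝ) * 3 := by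
            refine sum_le_sum fun i hi => ?_
            rw [mem_range] at hi
            rw [hκal i (by omega)]
            exact mul_le_mul_of_nonneg_left (al_div w L i) (by positivity)
        _ = 6 * ∑ i ∈ range (L + 1), (K i : ℝ) := by
            rw [mul_sum]
            exact sum_congr rfl fun i _ => by ring
        _ ≤ c₁ * ff X := by linarith) ∅ (by simp) (by
      rw [sum_empty]
      have h6 : Pool.Agent.Helper736_CG.OldSM.g X = gg X := rfl
      rw [h6]
      positivity) z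
  have hz : (z : ℝ) + X / 4 < t := ht1
  refine ⟨t, hz, ht2, fun i hi => ?_⟩
  have e7 : TZ^[i] (a + 2 ^ L * t) = TZ^[i] a + al w L i * t := by
    rw [shiftZ hfa t i hi]
    unfold al
    push_cast
    ring
  refine ⟨e7, fun j hj => ?_⟩
  rw [e7]
  have h1 := ht3 (al w L i) (mem_image_of_mem _ (mem_range.2 (by omega))) (TZ^[i] a + j) (by
    rw [hκal i hi]
    have h2 : |TZ^[i] a + j| ≤ 2 * (K i : ℤ) := by
      have h3 := abs_add_le (TZ^[i] a) j
      have h4 := (hlo i hi).2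
      linarith
    rw [← Int.cast_abs]
    exact_mod_cast h2)
  convert h1 using 3
  ring

end Pool.Agent.Helper736_CG
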