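import Mathlib
import Pool.Agent.Helper736_CG.Traj

set_option autoImplicit false

/-! Prime-free pieces of trajectories of almost maximal length. -/

namespace Pool.Agent.Helper736_CG

open Filter Finset

theorem long_words (ε : ℝ) (hε : 0 < ε) (K : ℕ) : ∃ L₀ : ℕ, ∀ L : ℕ, L₀ ≤ L → ∀ w : ℕ → Bool,
    ∃ n : ℤ, 2 ^ L < n ∧ (n : ℝ) < (2 : ℝ) ^ ((1 + ε) * L) ∧ FollowsZ w L n ∧
      ∀ i ≤ L, PrimeFree K (TZ^[i] n) := by
  obtain ⟨c, hc, X₀, h⟩ := words
  have hlog2 : 0 < Real.log 2 := Real.log_pos (by norm_num)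
  have hX : Tendsto (fun L : ℕ => (2 : ℝ) ^ (ε / 2 * (L : ℝ))) atTop atTop := by
    have h1 : ∀ L : ℕ, (2 : ℝ) ^ (ε / 2 * (L : ℝ)) = ((2 : ℝ) ^ (ε / 2)) ^ L := fun L => by
      rw [Real.rpow_mul (by norm_num), Real.rpow_natCast]
    simp_rw [h1]
    exact tendsto_pow_atTop_atTop_of_one_lt (Real.one_lt_rpow (by norm_num) (by positivity))
  obtain ⟨L₀, hL₀⟩ := eventually_atTop.1 ((((hX.eventually_ge_atTop X₀).and
    (hX.eventually_ge_atTop 2)).and (hX.eventually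
      (ev_ratio (2 * (2 * (K : ℝ) + 1) / (c * (ε / 2 * Real.log 2)))))).and
        (eventually_ge_atTop 1))
  refine ⟨L₀, fun L hL w => ?_⟩
  obtain ⟨⟨⟨b1, b2⟩, b3⟩, b4⟩ := hL₀ L hL
  set X : ℝ := (2 : ℝ) ^ (ε / 2 * (L : ℝ)) with hXdef
  have hL1 : (1 : ℝ) ≤ L := by exact_mod_cast b4
  have hlX : Real.log X = ε / 2 * L * Real.log 2 := by
    rw [hXdef, Real.log_rpow (by norm_num)]
  obtain ⟨n, hn1, hn2, hn3, hn4⟩ := h X b1 L w (fun _ => K) (by
    rw [sum_const, card_range, nsmul_eq_mul]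
    push_cast
    have h1 : c * (2 * (2 * (K : ℝ) + 1) / (c * (ε / 2 * Real.log 2)) * Real.log X) ≤ c * gg X :=
      mul_le_mul_of_nonneg_left b3 hc.le
    refine le_trans ?_ h1
    have h2 : c * (2 * (2 * (K : ℝ) + 1) / (c * (ε / 2 * Real.log 2)) * Real.log X) =
        2 * (2 * (K : ℝ) + 1) * L := by
      rw [hlX]
      field_simp
    rw [h2]
    have h3 : (0 : ℝ) ≤ 2 * K + 1 := by positivity
    nlinarith) 1
  refine ⟨n, ?_, ?_, hn3, hn4⟩
  · have h1 : (2 : ℝ) ^ L < n := by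
      simpa using hn1
    exact_mod_cast h1
  · refine hn2.trans_le ?_
    have h1 : (2 : ℝ) ^ ((1 + ε) * L) = 2 ^ L * (X * X) := by
      rw [hXdef, ← Real.rpow_add (by norm_num), ← Real.rpow_natCast, ← Real.rpow_add (by norm_num)]
      congr 1
      ring
    rw [h1]
    have h2 : ((1 : ℤ) : ℝ) + X + 1 ≤ X * X := by
      push_cast
      nlinarith
    exact mul_le_mul_of_nonneg_left h2 (by positivity)

end Pool.Agent.Helper736_CG
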