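import Mathlib
import Pool.Agent.Results.MP_3bc45c_nt.RecordGapsAtPrescribedPlaces
import Pool.Agent.helper391_DG.Ana
import Pool.Agent.Helper736_CG.Terras

set_option autoImplicit false

/-! Collatz itineraries and record gaps between primes. -/

namespace Pool.Agent.Helper736_CG

open Filter Finset Pool.Agent.helper391_DG

theorem main (θ ε : ℝ) (hθ : 0 < θ) (hθ1 : θ < 1) (hε : 0 < ε) :
    ∃ κ : ℝ, 0 < κ ∧ ∃ M₀ : ℕ, ∀ M : ℕ, M₀ ≤ M → ∀ (w : ℕ → Bool) (L l : ℕ), l ≤ L →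
      (3 : ℝ) ^ ones w l * 2 ^ (L - l) ≤ (M : ℝ) ^ θ →
      ∃ m : ℕ, Follows w L m ∧ M < T^[l] m ∧ ((T^[l] m : ℕ) : ℝ) ≤ M + (M : ℝ) ^ (θ + ε) ∧
        ∀ p : ℕ, p.Prime → κ * F (Real.log M) < |(p : ℝ) - (T^[l] m : ℕ)| := by
  set ε' : ℝ := min ε (1 - θ) with hε'
  have hε'0 : 0 < ε' := lt_min hε (by linarith)
  have hε'1 : ε' ≤ 1 - θ := min_le_right _ _
  set δ : ℝ := ε' / (θ + ε') with hδ
  have hδ0 : 0 < δ := by positivity
  have hδ1 : δ < 1 := by
    rw [hδ, div_lt_one (by positivity)]; linarith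
  obtain ⟨c, hc, x₀, hbb⟩ := Pool.Agent.Results.MP_3bc45c_nt.RecordGapsAtPrescribedPlaces.result
    δ 0 hδ0 hδ1 le_rfl
  obtain ⟨R, hR⟩ := F_scale θ hθ
  have hcast : Tendsto (fun M : ℕ => (M : ℝ)) atTop atTop := tendsto_natCast_atTop_atTop
  have hlogM : Tendsto (fun M : ℕ => Real.log (M : ℝ)) atTop atTop :=
    Real.tendsto_log_atTop.comp hcast
  have hxM : Tendsto (fun M : ℕ => (M : ℝ) ^ (θ + ε')) atTop atTop :=
    (tendsto_rpow_atTop (by positivity)).comp hcast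
  obtain ⟨M₀, hM₀⟩ := eventually_atTop.1 ((((hxM.eventually_ge_atTop x₀).and
    (hlogM.eventually_ge_atTop R)).and (hxM.eventually (thr_large 3))).and (eventually_ge_atTop 2))
  refine ⟨c * θ / 24, by positivity, M₀, fun M hM w L l hl hd => ?_⟩
  obtain ⟨⟨⟨b1, b2⟩, b4⟩, b5⟩ := hM₀ M hM
  have hM2 : (2 : ℝ) ≤ M := by exact_mod_cast b5
  have hM0 : (0 : ℝ) < M := by linarith
  set x : ℝ := (M : ℝ) ^ (θ + ε') with hx
  have hxpow : x ^ (1 - δ) = (M : ℝ) ^ θ := by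
    rw [hx, ← Real.rpow_mul hM0.le]
    congr 1
    rw [hδ]
    field_simp
    ring
  set s := ones w l with hs
  set r := L - l with hr
  obtain ⟨a, ha, hfa⟩ := exists_follows w L
  have hlt := iterate_lt hfa ha l hl
  rw [← hs, ← hr] at hlt
  obtain ⟨n, hn1, hn2, hn3, hn4⟩ := hbb x b1 (3 ^ s * 2 ^ r)
    (Nat.one_le_iff_ne_zero.2 (by positivity))
    (by
      push_cast
      rw [hxpow]
      exact hd)
    (by
      rw [zero_div]
      apply le_of_eq
      apply Finset.sum_eq_zero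
      intro p hp
      rw [Finset.mem_filter, Nat.mem_primeFactors] at hp
      obtain ⟨⟨hp0, hp1, -⟩, hp2⟩ := hp
      have hp3 : p ≤ 3 := by
        rcases (Nat.Prime.dvd_mul hp0).1 hp1 with h | h
        · exact Nat.le_of_dvd (by norm_num) (hp0.dvd_of_dvd_pow h)
        · exact (Nat.le_of_dvd (by norm_num) (hp0.dvd_of_dvd_pow h)).trans (by norm_num)
      have hp4 : (p : ℝ) ≤ 3 := by exact_mod_cast hp3
      linarith)
    (T^[l] a) M
  have hθM : (M : ℝ) ^ θ ≤ M := by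
    calc (M : ℝ) ^ θ ≤ (M : ℝ) ^ (1 : ℝ) :=
          Real.rpow_le_rpow_of_exponent_le (by linarith) (by linarith)
      _ = M := Real.rpow_one _
  have hdM : 3 ^ s * 2 ^ r ≤ M := by
    have h1 : ((3 ^ s * 2 ^ r : ℕ) : ℝ) ≤ M := by
      push_cast
      exact hd.trans hθM
    exact_mod_cast h1
  have han : T^[l] a ≤ n := by omega
  obtain ⟨t, ht⟩ : 3 ^ s * 2 ^ r ∣ n - T^[l] a := (Nat.modEq_iff_dvd' han).1 hn1.symm
  have hnt : n = T^[l] a + 3 ^ s * 2 ^ r * t := by omega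
  have hTm : T^[l] (a + 2 ^ L * t) = n := by
    rw [shift hfa t l hl, ← hs, ← hr, hnt]
  refine ⟨a + 2 ^ L * t, follows_shift hfa t, ?_, ?_, ?_⟩
  · rw [hTm]; exact hn2
  · rw [hTm]
    refine hn3.trans ?_
    have h1 : x ≤ (M : ℝ) ^ (θ + ε) := by
      rw [hx]
      exact Real.rpow_le_rpow_of_exponent_le (by linarith) (by linarith [min_le_left ε (1 - θ)])
    linarith
  · intro p hp
    rw [hTm]
    refine lt_of_le_of_lt ?_ (hn4 p hp)
    have hphi : (1 : ℝ) / 3 ≤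
        ((Nat.totient (3 ^ s * 2 ^ r) : ℕ) : ℝ) / ((3 ^ s * 2 ^ r : ℕ) : ℝ) := by
      have h1 : ((3 ^ s * 2 ^ r : ℕ) : ℝ) ≤ 3 * ((Nat.totient (3 ^ s * 2 ^ r) : ℕ) : ℝ) := by
        exact_mod_cast totient_bound s r
      have h2 : (0 : ℝ) < ((3 ^ s * 2 ^ r : ℕ) : ℝ) := by positivity
      rw [div_le_div_iff₀ (by norm_num) h2]
      linarith
    have hlx : Real.log x = (θ + ε') * Real.log M := by
      rw [hx, Real.log_rpow hM0]
    have hlM : 0 ≤ Real.log M := Real.log_nonneg (by linarith)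
    obtain ⟨h1, h2⟩ := hR (Real.log M) b2 (Real.log x) (by rw [hlx]; nlinarith)
      (by rw [hlx]; nlinarith)
    have h3 : F (Real.log x) = Real.log x * (Real.log (Real.log x)) ^ 2 *
          Real.log (Real.log (Real.log (Real.log x))) / (Real.log (Real.log (Real.log x))) ^ 2 := rfl
    rw [← h3]
    have h4 : 0 < F (Real.log x) := lt_of_lt_of_le (by positivity) h2
    calc c * θ / 24 * F (Real.log M) = c * (1 / 3 * (θ / 8 * F (Real.log M))) := by ring
      _ ≤ c * (1 / 3 * F (Real.log x)) := by gcongr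
      _ ≤ _ := by gcongr

end Pool.Agent.Helper736_CG
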